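import Pool.Agent.L5helper24.KM.Inf
import Pool.Agent.W435.PG.SQR

/-!
# The absolute Hodge classes on products of `X` and `A`: four possibilities

Let `X` be a smooth projective complex variety, `T` the transcendental part of `H^2(X)(1)`; assume
that `T` is of K3 type (`h^{1,-1} = 1`), that `End_Hdg T = ℚ` and that the rank `n` of `T` is at
least three and different from four (surfaces with `p_g = 1`, hyper-Kähler varieties, with general
`T`). Let `A` be an arbitrary abelian variety. We assume that `T` is either related to `A` by a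
nonzero Hodge morphism `T → H^1(A) ⊗ H^1(A)` (for instance `A` is the Kuga-Satake variety of `T`), or
unrelated to `A`: all Hodge classes in the `T^{⊗ a} ⊗ H^1(A)^{⊗ b}` are killed by the Hodge operator
of `T` alone.

**Theorem.** For the absolute Hodge classes in all `T^{⊗ a} ⊗ H^1(A)^{⊗ b}` (all `a`, `b` at the same
time) there are only four possibilities:

1. all Hodge classes are absolute Hodge;
2. a Hodge class is absolute Hodge if and only if its degree `a` in `T` is even (for a sum of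
   classes: if only even degrees occur);
3. a Hodge class is absolute Hodge if and only if it is killed by the Hodge operator of `T` alone
   (that is, if it is a combination of products of Hodge classes of `T^{⊗ a}` and of
   `H^1(A)^{⊗ b}`);
4. a Hodge class is absolute Hodge if and only if it is invariant under the full orthogonal group of
   `T` (acting on the variables in `T` only; by invariant theory: if it is a combination of products
   of pairings `Q` of two variables in `T` and of Hodge classes of `H^1(A)^{⊗ b}`).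

So a single absolute Hodge class which is not a product class, of any bidegree, implies that all
Hodge classes of even degree in `T` are absolute Hodge, and the index of the absolute Hodge classes
among the Hodge classes is `1`, `2` or `∞`. No hypothesis is made on absolute Hodge classes, except
for Deligne's theorem that all Hodge classes of the powers of `A` are absolute Hodge.

`Conjugate T A` records one conjugate (an automorphism `σ` of `ℂ`): the Hodge structures `T'` and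
`A'` of `X^σ` and `A^σ`, and the matrices, in rational bases of the singular cohomology groups, of
the comparison isomorphisms of the cohomology of `X`, `A` and of `X^σ`, `A^σ`: the (`σ`-linear)
de Rham comparison `DT`, `DA` and `uD` (for the Tate twist `ℚ(-1)`), and the `l`-adic comparisons
`E l`, `V l`, `u l` for all primes `l`.

Definitions used from the libraries:

* `HS n` (`Pool.Agent.W544.PG.HS`): a polarised rational Hodge structure of level two on `ℚ^n`,
  twisted to weight zero: a symmetric rational form `Q` and the Hodge operator `x`, a complex matrix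
  that is `1`, `0`, `-1` on the pieces of type `(1,-1)`, `(0,0)`, `(-1,1)` (so `x ^ 3 = x`), with
  `conj x = -x`, skew for `Q`, and the hermitian form of `Q (2 x ^ 2 - 1)` positive definite.
* `HW w` (`Pool.Agent.W544.PG.HW`): a polarised rational Hodge structure of weight one on `ℚ^w`,
  that is a polarised abelian variety up to isogeny: the rational alternating form `E`, and the
  Hodge operator `y` with eigenvalues `1/2`, `-1/2` (`4 y ^ 2 = 1`), `conj y = -y`, skew for `E`,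
  and the hermitian form of `2 i E y` positive definite.
* `T.Scalar` (`Pool.Agent.W544.PG.HS.Scalar`): every rational matrix commuting with `x` is a
  rational multiple of the identity.
* `mC`: a rational matrix as a complex matrix.
-/

namespace Pool.Agent.Results.MP_4e1cf2_ag.FourPossibilities

open Matrix Finset Pool.Agent.W544.PG Pool.Agent.L5helper24

/-- The pull-back of a rational multilinear form `t` on `T ⊕ H_1(A)`, with variables indexed by `κ`
(given by its values on the basis vectors), under matrices `B`, `C` with coefficients in a ring. -/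
def pull {n w : ℕ} {R : Type} [CommRing R] [Algebra ℚ R] {κ : Type} [Fintype κ] [DecidableEq κ]
    (B : Matrix (Fin n) (Fin n) R) (C : Matrix (Fin w) (Fin w) R)
    (t : (κ → Fin n ⊕ Fin w) → ℚ) (J : κ → Fin n ⊕ Fin w) : R :=
  ∑ K : κ → Fin n ⊕ Fin w, (∏ k, (fromBlocks B 0 0 C :
    Matrix (Fin n ⊕ Fin w) (Fin n ⊕ Fin w) R) (K k) (J k)) * algebraMap ℚ R (t K)

/-- The form `t` is killed by the matrix `X` (acting as a derivation). -/
def KilledBy {n w : ℕ} (X : Matrix (Fin n ⊕ Fin w) (Fin n ⊕ Fin w) ℂ) {κ : Type} [Fintype κ]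
    [DecidableEq κ] (t : (κ → Fin n ⊕ Fin w) → ℚ) : Prop :=
  ∀ J, ∑ k, ∑ l, X l (J k) * (t (Function.update J k l) : ℂ) = 0

/-- A Hodge class: a form which is killed by the Hodge operator `x ⊕ y`. -/
def IsHodge {n w : ℕ} (T : HS n) (A : HW w) {κ : Type} [Fintype κ] [DecidableEq κ]
    (t : (κ → Fin n ⊕ Fin w) → ℚ) : Prop := KilledBy (fromBlocks T.x 0 0 A.y) t

/-- The number of the basis vectors among the `J k` which belong to `T`. -/
def degT {n w : ℕ} {κ : Type} [Fintype κ] (J : κ → Fin n ⊕ Fin w) : ℕ :=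
  ∑ k, Sum.elim (fun _ => 1) (fun _ => 0) (J k)

/-- The number of the basis vectors among the `J k` which belong to `H_1(A)`. -/
def degA {n w : ℕ} {κ : Type} [Fintype κ] (J : κ → Fin n ⊕ Fin w) : ℕ :=
  ∑ k, Sum.elim (fun _ => 0) (fun _ => 1) (J k)

/-- The data of a conjugate. -/
structure Conjugate {n w : ℕ} (T : HS n) (A : HW w) where
  T' : HS n
  A' : HW w
  /-- the de Rham comparison for `T` -/
  DT : Matrix (Fin n) (Fin n) ℂ
  isoD : DTᵀ * mC T'.Q * DT = mC T.Q
  /-- the de Rham comparison for the abelian variety -/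
  DA : Matrix (Fin w) (Fin w) ℂ
  /-- the de Rham comparison for the Tate twist `ℚ(-1)` -/
  uD : ℂ
  uD_ne : uD ≠ 0
  /-- the `l`-adic comparison for `T` -/
  E : ∀ (l : ℕ) [Fact l.Prime], Matrix (Fin n) (Fin n) ℚ_[l]
  isoE : ∀ (l : ℕ) [Fact l.Prime], (E l)ᵀ * T'.Q.map (algebraMap ℚ ℚ_[l]) * E l =
    T.Q.map (algebraMap ℚ ℚ_[l])
  /-- the `l`-adic comparison for the abelian variety -/
  V : ∀ (l : ℕ) [Fact l.Prime], Matrix (Fin w) (Fin w) ℚ_[l]
  /-- the `l`-adic comparison for the Tate twist `ℚ(-1)` -/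
  u : ∀ (l : ℕ) [Fact l.Prime], ℚ_[l]
  u_ne : ∀ (l : ℕ) [Fact l.Prime], u l ≠ 0

/-- A form `t` is an absolute Hodge class, for a family of conjugates: it is a Hodge class, and for
every conjugate there is a Hodge class `t'` with the same de Rham component and the same `l`-adic
components for all primes `l` (a form with `2 b` variables in `H_1(A)` has values in `ℚ(-b)`). -/
def IsAbsolute {n w : ℕ} {T : HS n} {A : HW w} {I : Type} (𝒞 : I → Conjugate T A)
    {κ : Type} [Fintype κ] [DecidableEq κ] (t : (κ → Fin n ⊕ Fin w) → ℚ) : Prop :=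
  IsHodge T A t ∧ ∀ i, ∃ t' : (κ → Fin n ⊕ Fin w) → ℚ, IsHodge (𝒞 i).T' (𝒞 i).A' t' ∧
    (∀ J, pull (𝒞 i).DT (𝒞 i).DA t' J = (𝒞 i).uD ^ (degA J / 2) * algebraMap ℚ ℂ (t J)) ∧
    ∀ (l : ℕ) [Fact l.Prime] (J : κ → Fin n ⊕ Fin w), pull ((𝒞 i).E l) ((𝒞 i).V l) t' J =
      (𝒞 i).u l ^ (degA J / 2) * algebraMap ℚ ℚ_[l] (t J)

/-- **The four possibilities for the absolute Hodge classes.** -/
theorem result (n w : ℕ) (T : HS n) (hT : T.Scalar) (hx : (T.x * T.x).trace = 2) (hn : 3 ≤ n)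
    (hn4 : n ≠ 4) (A : HW w) (I : Type) (𝒞 : I → Conjugate T A)
    -- Deligne's theorem: the Hodge classes on the powers of `A` are absolute Hodge
    (deligne : ∀ (κ : Type) [Fintype κ] [DecidableEq κ] (t : (κ → Fin n ⊕ Fin w) → ℚ),
      IsHodge T A t → (∀ J, t J ≠ 0 → degT J = 0) → IsAbsolute 𝒞 t)
    -- `T` is related to `A`, or unrelated to `A`
    (hrel : (∃ j : Fin n → Matrix (Fin w) (Fin w) ℚ, j ≠ 0 ∧
        ∀ a, ∑ b, T.x b a • mC (j b) + A.yᵀ * mC (j a) + mC (j a) * A.y = 0) ∨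
      ∀ (κ : Type) [Fintype κ] [DecidableEq κ] (t : (κ → Fin n ⊕ Fin w) → ℚ), IsHodge T A t →
        KilledBy (fromBlocks T.x 0 0 0) t) :
    (∀ (κ : Type) [Fintype κ] [DecidableEq κ] (t : (κ → Fin n ⊕ Fin w) → ℚ), IsHodge T A t →
      IsAbsolute 𝒞 t) ∨
    (∀ (κ : Type) [Fintype κ] [DecidableEq κ] (t : (κ → Fin n ⊕ Fin w) → ℚ), IsHodge T A t →
      (IsAbsolute 𝒞 t ↔ ∀ J, t J ≠ 0 → Even (degT J))) ∨
    (∀ (κ : Type) [Fintype κ] [DecidableEq κ] (t : (κ → Fin n ⊕ Fin w) → ℚ), IsHodge T A t →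
      (IsAbsolute 𝒞 t ↔ KilledBy (fromBlocks T.x 0 0 0) t)) ∨
    (∀ (κ : Type) [Fintype κ] [DecidableEq κ] (t : (κ → Fin n ⊕ Fin w) → ℚ), IsHodge T A t →
      (IsAbsolute 𝒞 t ↔ ∀ g : Matrix (Fin n) (Fin n) ℂ, gᵀ * mC T.Q * g = mC T.Q →
        ∀ J, pull g 1 t J = algebraMap ℚ ℂ (t J))) := by
  classical
  -- the embeddings and the square roots
  obtain ⟨f, -⟩ : ∃ f : ∀ (l : ℕ) (_ : Fact l.Prime), ℚ_[l] →+* ℂ, True :=
    ⟨fun l hl => (@W435.PG.emb l hl).some, trivial⟩
  have hsq : ∀ z : ℂ, ∃ s : ℂ, s * s = z := by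
    intro z
    obtain ⟨s, hs⟩ := IsAlgClosed.exists_pow_nat_eq z (n := 2) (by norm_num)
    exact ⟨s, by rw [← hs, sq]⟩
  choose sq hsq' using hsq
  have hiff : ∀ {κ : Type} [Fintype κ] [DecidableEq κ] {T : HS n} {A : HW w}
      (t : (κ → Fin n ⊕ Fin w) → ℚ), KM.IsH T A t ↔ IsHodge T A t := fun t => funext_iff
  have hplR : ∀ {R : Type} [Field R] [CharZero R] {κ : Type} [Fintype κ] [DecidableEq κ]
      (B : Matrix (Fin n) (Fin n) R) (C : Matrix (Fin w) (Fin w) R)
      (t : (κ → Fin n ⊕ Fin w) → ℚ) (J : κ → Fin n ⊕ Fin w), KM.plR B C t J = pull B C t J := by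
    intro R _ _ κ _ _ B C t J
    rw [KM.plR, pull]
    refine Finset.sum_congr rfl fun K _ => ?_
    rw [eq_ratCast]
  -- the comparison matrices
  obtain ⟨PP, hPPd⟩ : ∃ PP : I → Set (Matrix (Fin n ⊕ Fin w) (Fin n ⊕ Fin w) ℂ),
      PP = fun i => {P | P = KM.PM (RingHom.id ℂ) (sq (𝒞 i).uD) (𝒞 i).DT (𝒞 i).DA ∨
        ∃ (l : ℕ) (hl : Fact l.Prime), P = KM.PM (f l hl) (sq (f l hl ((𝒞 i).u l)))
          ((𝒞 i).E l) ((𝒞 i).V l)} := ⟨_, rfl⟩
  have hTH : ∀ (i : I) {κ : Type} [Fintype κ] [DecidableEq κ] {t : (κ → Fin n ⊕ Fin w) → ℚ},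
      IsHodge T A t → (t ∈ KM.TH T (𝒞 i).T' A (𝒞 i).A' (PP i) κ ↔
        ∃ t' : (κ → Fin n ⊕ Fin w) → ℚ, IsHodge (𝒞 i).T' (𝒞 i).A' t' ∧
        (∀ J, pull (𝒞 i).DT (𝒞 i).DA t' J = (𝒞 i).uD ^ (degA J / 2) * algebraMap ℚ ℂ (t J)) ∧
        ∀ (l : ℕ) [Fact l.Prime] (J : κ → Fin n ⊕ Fin w), pull ((𝒞 i).E l) ((𝒞 i).V l) t' J =
          (𝒞 i).u l ^ (degA J / 2) * algebraMap ℚ ℚ_[l] (t J)) := by
    intro i κ _ _ t ht
    rw [KM.mem_TH]
    constructor
    · rintro ⟨-, t', h1, h2⟩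
      refine ⟨t', (hiff t').1 h1, ?_, ?_⟩
      · have h3 := (KM.pl_PM_iff (RingHom.id ℂ) (hsq' _) (𝒞 i).uD_ne (𝒞 i).DT (𝒞 i).DA
          ((hiff t).2 ht)).1 (h2 _ (by rw [hPPd]; exact Or.inl rfl))
        intro J
        rw [← hplR, h3 J, eq_ratCast]
        rfl
      · intro l hl J
        have h3 := (KM.pl_PM_iff (f l hl) (hsq' _) ((𝒞 i).u_ne l) ((𝒞 i).E l) ((𝒞 i).V l)
          ((hiff t).2 ht)).1 (h2 _ (by rw [hPPd]; exact Or.inr ⟨l, hl, rfl⟩))
        rw [← hplR, h3 J, eq_ratCast]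
        rfl
    · rintro ⟨t', h1, h2, h3⟩
      refine ⟨(hiff t).2 ht, t', (hiff t').2 h1, fun P hP => ?_⟩
      rw [hPPd] at hP
      rcases hP with hP | ⟨l, hl, hP⟩
      · rw [hP]
        refine (KM.pl_PM_iff (RingHom.id ℂ) (hsq' _) (𝒞 i).uD_ne (𝒞 i).DT (𝒞 i).DA
          ((hiff t).2 ht)).2 fun J => ?_
        rw [hplR, h2 J, eq_ratCast]
        rfl
      · rw [hP]
        refine (KM.pl_PM_iff (f l hl) (hsq' _) ((𝒞 i).u_ne l) ((𝒞 i).E l) ((𝒞 i).V l)
          ((hiff t).2 ht)).2 fun J => ?_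
        rw [hplR, h3 l J, eq_ratCast]
        rfl
  have hPP : ∀ i, ∀ P ∈ PP i, ∃ a d, P = fromBlocks a 0 0 d ∧
      aᵀ * mC (𝒞 i).T'.Q * a = mC T.Q := by
    intro i P hP
    rw [hPPd] at hP
    rcases hP with hP | ⟨l, hl, hP⟩
    · refine ⟨_, _, hP, ?_⟩
      have h1 : (𝒞 i).DT.map (RingHom.id ℂ) = (𝒞 i).DT := by
        ext a b
        rfl
      rw [h1]
      exact (𝒞 i).isoD
    · refine ⟨_, _, hP, ?_⟩
      have hQ : ∀ M : Matrix (Fin n) (Fin n) ℚ, (M.map (algebraMap ℚ ℚ_[l])).map (f l hl) =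
          mC M := by
        intro M
        ext a b
        simp [mC]
      have := congrArg (fun M : Matrix (Fin n) (Fin n) ℚ_[l] => M.map (f l hl)) ((𝒞 i).isoE l)
      simp only [Matrix.map_mul, hQ] at this
      exact this
  have hne : ∀ i, (PP i).Nonempty := by
    intro i
    rw [hPPd]
    exact ⟨_, Or.inl rfl⟩
  have hsupp : ∀ {κ : Type} [Fintype κ] {t : (κ → Fin n ⊕ Fin w) → ℚ},
      (∀ J, t J ≠ 0 → ∀ k, ∃ b, J k = Sum.inr b) → ∀ J, t J ≠ 0 → degT J = 0 := by
    intro κ _ t h J hJ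
    rw [degT]
    refine Finset.sum_eq_zero fun k _ => ?_
    obtain ⟨b, hb⟩ := h J hJ k
    rw [hb]
    rfl
  have hsys : ∀ i, KM.IsSys T A (KM.TH T (𝒞 i).T' A (𝒞 i).A' (PP i)) := by
    intro i
    have h1 := deligne (Fin 2) (KM.bf (fromBlocks 0 0 0 A.E)) ((hiff _).1 (KM.isH_bfA A.skew))
      (hsupp fun J hJ k => KM.supp_bfA J hJ k)
    obtain ⟨-, t', h2, h3⟩ := KM.mem_TH.1 ((hTH i h1.1).2 (h1.2 i))
    obtain ⟨M, hM1, hM2⟩ := KM.exists_M (fun P hP => by
      obtain ⟨a, d, h4, -⟩ := hPP i P hP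
      exact ⟨a, d, h4⟩) h2 h3
    exact KM.TH_sys (hPP i) hM1 hM2 (hne i)
  have hsys0 : KM.IsSys T A (KM.FH T A ∅) := KM.FH_sys fun P hP => absurd hP (Set.notMem_empty P)
  have hS := KM.IsSys.inf hsys0 hsys
  have hmem : ∀ {κ : Type} [Fintype κ] [DecidableEq κ] {t : (κ → Fin n ⊕ Fin w) → ℚ},
      t ∈ KM.FH T A ∅ κ ⊓ ⨅ i, KM.TH T (𝒞 i).T' A (𝒞 i).A' (PP i) κ ↔ IsAbsolute 𝒞 t := by
    intro κ _ _ t
    rw [Submodule.mem_inf, Submodule.mem_iInf, KM.mem_FH]
    constructor
    · rintro ⟨⟨h1, -⟩, h2⟩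
      exact ⟨(hiff t).1 h1, fun i => (hTH i ((hiff t).1 h1)).1 (h2 i)⟩
    · rintro ⟨h1, h2⟩
      exact ⟨⟨(hiff t).2 h1, fun P hP => absurd hP (Set.notMem_empty P)⟩, fun i =>
        (hTH i h1).2 (h2 i)⟩
  have hBig : T.Big (fun _ => (0 : Fin 1)) (fun _ => 1) (fun _ => n - 2) := by
    refine ⟨KM.bd1 _, KM.bd1 _, fun P hP => ?_, fun i => ?_, fun i => ?_, fun i => ?_⟩
    · obtain ⟨z, hz⟩ := hT P hP
      refine ⟨fun _ => z, ?_⟩
      rw [hz]
      ext a b
      rw [Matrix.smul_apply, Matrix.one_apply, Matrix.diagonal_apply]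
      by_cases h : a = b <;> simp [h]
    · rw [Finset.filter_true_of_mem fun a _ => Subsingleton.elim _ _]
      rw [Nat.cast_one, mul_one, ← hx]
      rfl
    · rw [Finset.filter_true_of_mem fun a _ => Subsingleton.elim _ _, Finset.card_univ,
        Fintype.card_fin]
      omega
    · exact Or.inl ⟨rfl, by omega, by omega⟩
  have hkill : ∀ {κ : Type} [Fintype κ] [DecidableEq κ] (t : (κ → Fin n ⊕ Fin w) → ℚ),
      KM.der (fromBlocks T.x 0 0 0) (fun J => (t J : ℂ)) = 0 ↔
        KilledBy (fromBlocks T.x 0 0 0) t := fun t => funext_iff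
  have hpl : ∀ {κ : Type} [Fintype κ] [DecidableEq κ] (t : (κ → Fin n ⊕ Fin w) → ℚ)
      (g : Matrix (Fin n) (Fin n) ℂ),
      (KM.pl (fromBlocks g 0 0 1) (fun J => (t J : ℂ)) = fun J => (t J : ℂ)) ↔
        ∀ J, pull g 1 t J = algebraMap ℚ ℂ (t J) := by
    intro κ _ _ t g
    rw [funext_iff]
    refine forall_congr' fun J => ?_
    rw [KM.pl, pull, eq_ratCast]
    simp only [eq_ratCast]
  have hrel' : (∃ j : Fin n → Matrix (Fin w) (Fin w) ℚ, KS.IsHodgeMap T A j ∧ j ≠ 0) ∨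
      ∀ (κ : Type) [Fintype κ] [DecidableEq κ] (t : (κ → Fin n ⊕ Fin w) → ℚ), KM.IsH T A t →
        KM.der (fromBlocks T.x 0 0 0) (fun J => (t J : ℂ)) = 0 := by
    rcases hrel with ⟨j, h1, h2⟩ | h
    · exact Or.inl ⟨j, h2, h1⟩
    · exact Or.inr fun κ _ _ t ht => (hkill t).2 (h κ t ((hiff t).1 ht))
  rcases KM.four hBig rfl hS (fun κ _ _ t ht hs => hmem.2 (deligne κ t ((hiff t).1 ht)
    (hsupp hs))) hrel' with h | h | h | h
  · exact Or.inl fun κ _ _ t ht => hmem.1 (h κ t ((hiff t).2 ht))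
  · exact Or.inr (Or.inl fun κ _ _ t ht => hmem.symm.trans (h κ t ((hiff t).2 ht)))
  · exact Or.inr (Or.inr (Or.inl fun κ _ _ t ht =>
      hmem.symm.trans ((h κ t ((hiff t).2 ht)).trans (hkill t))))
  · refine Or.inr (Or.inr (Or.inr fun κ _ _ t ht =>
      hmem.symm.trans ((h κ t ((hiff t).2 ht)).trans ?_)))
    exact forall_congr' fun g => forall_congr' fun _ => hpl t g

end Pool.Agent.Results.MP_4e1cf2_ag.FourPossibilities
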