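import Pool.Agent.L5helper28.HA.Main

/-!
# Absolutely Hodge classes on the products of an arbitrary variety with almost all members of an
independent family

Let `X i` be a family of smooth projective complex varieties of one of the following two kinds:

* **independent** (`Independent`): the Hodge group of the product of finitely many different members
  is the product of their Hodge groups (formulated with the Lie algebras), for instance elliptic
  curves, with or without complex multiplication, no two of which are isogenous (Imai; a proof is in
  the file `Pool/Agent/L5helper28/IF/EllG.lean`);
* **pairwise independent** (`PairwiseIndependent`): the Hodge groups of the members are semisimple and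
  the Hodge group of the product of **two** different members is the product of their Hodge groups.
  This condition concerns only pairs. For instance abelian varieties of odd dimension with
  endomorphism ring `ℤ` no two of which are isogenous.

Let `Z` be an **arbitrary** smooth projective variety, and let `t` be the dimension of `H(Z, ℚ)` modulo
the space spanned by the Hodge classes. The theorem: all but at most `t / 2` members of the family have
this property. Let `P` be any variety built from members which are not exceptional (`Built`: products,
and varieties whose cohomology is generated by morphisms of Hodge structures from varieties built
before) on which all Hodge classes are absolutely Hodge. By the theorem of Deligne these are **all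
abelian varieties** `P`, for instance all products of elliptic curves which are not isogenous to
exceptional ones. Let `Y` be any variety built from `Z` and the exceptional members. Then

* all Hodge classes on `P × Y` are absolutely Hodge if and only if all Hodge classes on `Y` are;
* if the dimension of `Y` is at most three, then all Hodge classes on `P × Y` are absolutely Hodge
  (the Hodge classes of degree two on `Y` are, by the theorem of Lefschetz).

The dimension of `P` is arbitrary; so all Hodge classes on `E_1 × ⋯ × E_n × Z` are absolutely Hodge
for every threefold `Z`, where the `E_i` are any elliptic curves outside of at most `t / 2` isogeny
classes. In general nothing is assumed on `Z` (the Hodge structure of `Z` need not be of abelian type).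

The proof. By Goursat's lemma for the Lie algebras of the Hodge groups (and a theorem of the type of
Ribet's lemma for perfect Lie algebras, which reduces the second kind of families to the first) the
Hodge classes on `P × Y` are combinations of products of Hodge classes, see
`MP_e12fcd_ag/IndependentFamilies`.
-/

set_option autoImplicit false

namespace Pool.Agent.Results.MP_4e1cf2_ag.IndependentFamilies

open Pool.Agent.H914 Pool.Agent.Y121.AHS Pool.Agent.L5helper28.HA

universe u v

/-- **Absolutely Hodge classes on products with members of an independent family.** -/
theorem result {k : Type u} [Field k] {𝒱 : VarClass k} {ops : CycleOps 𝒱} (T : HodgeTheory ops)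
    (D : Full.Conjugates T) {ι : Type v} (X : ι → 𝒱.Obj) (hX : ∀ i, Polarised (coh T (X i)))
    (h : Independent (fun i => coh T (X i)) ∨ PairwiseIndependent fun i => coh T (X i))
    (Z : 𝒱.Obj) (hZ : Polarised (coh T Z)) :
    ∃ S : Set ι, S.Finite ∧ 2 * S.ncard ≤ trans T Z ∧
      ∀ P Y : 𝒱.Obj, Built T (X '' Sᶜ) P → Built T (insert Z (X '' S)) Y →
        IsNonzero (T.W.H P) → (∀ j, AllAbsolute D P j) →
          ((∀ j, AllAbsolute D (P.prod Y) j) ↔ ∀ j, AllAbsolute D Y j) ∧
            (Y.dim ≤ 3 → AllAbsolute D Y 1 → ∀ j, AllAbsolute D (P.prod Y) j) :=
  main D X hX h Z hZ

end Pool.Agent.Results.MP_4e1cf2_ag.IndependentFamilies
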