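import Pool.Agent.L5helper28.HE.Full

/-!
# One explicit power of a variety decides whether the Hodge classes on all its powers are absolute Hodge

Let `T` be the Hodge theory `X ↦ H(X, ℚ)` on the smooth projective complex varieties, and `D` the family of
the conjugate theories `X ↦ H(X^σ, ℚ)` for the automorphisms `σ` of the field of complex numbers, with the
comparison isomorphisms given by de Rham cohomology and by the `ℓ`-adic cohomology for all primes `ℓ`. A
Hodge class is absolutely Hodge if for each `σ` it corresponds to one Hodge class on `X^σ` with respect
to all comparison isomorphisms (the full notion of Deligne, with the de Rham component and the étale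
component).

Let `X` be a smooth projective variety of dimension `d`, and let `t` be the transcendental Betti number
of `X`: the dimension of `H(X, ℚ)` minus the dimension of the space spanned by the Hodge classes. Let

* `N = max(4, t)` if the centre of the algebra of the endomorphisms of the Hodge structure `H(X, ℚ)`
  consists of self-adjoint endomorphisms (it is a product of totally real fields),
* `N = max(4, t ^ 2 / 4)` if the Hodge group of `X` is semisimple,
* `N = max(4, (d t) ^ t)` in general.

**If all Hodge classes on the one power `X ^ N` are absolutely Hodge, then all Hodge classes on all powers
of `X` are absolutely Hodge**, and also all Hodge classes on all varieties `Y` whose cohomology comes from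
the cohomology of powers of `X` by absolutely Hodge correspondences, for instance on all varieties whose
motives for absolute Hodge cycles belong to the tensor category generated by the motive of `X`. (For
several varieties `X i` take `X = ∏ X i`.) So for each `X` the equality of the Mumford-Tate group of `X` and
of the Galois group of the motive of `X` for absolute Hodge cycles is a statement about a finite number
of cohomology classes on one explicit variety; and if it fails then there is a Hodge class on `X ^ N`
which is not absolutely Hodge.

The proof. The bounded power theorem for the Hodge conjecture (`MP_e12fcd_ag/BoundedPower`) is proved in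
the files of the starting library for all systems of classes which are stable under linear combinations,
products, pull-backs and push-forwards; the absolutely Hodge classes are such a system. The analogous
theorem for the conjecture of Deligne (the classes for a variety over an algebraically closed field and
its embeddings) is `MP_c77f96_ag/OneExplicitPower`; here all components of the classes are compared at
the same time.
-/

namespace Pool.Agent.Results.MP_4e1cf2_ag.OneExplicitPower

open Pool.Agent.H914 Pool.Agent.Y121.AHS Pool.Agent.L5helper28 HE
open Pool.Agent.Y133.Half (pw)

universe u

/-- **One explicit power decides whether the Hodge classes on all powers are absolutely Hodge**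
(`pw X n` is `X ^ (n + 1)`). -/
theorem result {k : Type u} [Field k] {𝒱 : VarClass k} {ops : CycleOps 𝒱} (T : HodgeTheory ops)
    (D : Full.Conjugates T) (X : 𝒱.Obj) (ψ : Form T.W.K (coh T X).A)
    (hψ : IsPolarisation (coh T X) ψ) (t N : ℕ) (ht : t = trans T X)
    (hN : (TotallyReal (coh T X) ψ ∧ N = max 4 t) ∨
      (Semisimple (coh T X) ∧ N = max 4 (t ^ 2 / 4)) ∨ N = max 4 ((X.dim * t) ^ t))
    (h : AllAbs D (pw X (N - 1))) :
    (∀ n, AllAbs D (pw X n)) ∧ ∀ Y, FromPws D X Y → AllAbs D Y :=
  HE.Full.main D ψ hψ N (ht ▸ hN) h
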