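import Pool.Agent.L5helper68.AH.Hodge

/-!
# Absolute Hodge classes and trilinear forms (MP_4e1cf2_ag)
-/

set_option autoImplicit false

open CategoryTheory AlgebraicGeometry Pool.Agent.Y116.UV Pool.Agent.Z125.UN
  Pool.Agent.L5helper68.GO Pool.Agent.L5helper68.AH

namespace Pool.Agent.Results.MP_4e1cf2_ag.TrilinearHypersurfaces

universe v u v' u'

/-- **Absolute Hodge classes and trilinear forms.** (1) For every `n`: all Hodge classes on all smooth
projective complex schemes of dimension at most `n` are absolute Hodge if and only if for all trilinear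
forms `T` over `ℂ` one of whose three blocks of variables has at most `n + 2` variables, all Hodge classes
of all Tate twists of all semisimple subquotients (for instance of the graded pieces of the weight
filtration) of the cohomology with compact support of the hypersurface `T(x, y, z) = 1` are absolute Hodge.
(2) If one of the three blocks has at most five variables, this is true. -/
theorem result {C : Type u} [Category.{v} C] [Abelian C] [HasShift C ℤ]
    [∀ n : ℤ, (shiftFunctor C n).Additive] {B : Type u'} [Category.{v'} B] [Preadditive B]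
    (ω : C ⥤ B) [ω.Additive] (I : C) (Hc : Sch ℂ → ℕ → C) (hH : IsHodgeRealization Hc ω I) :
    (∀ n : ℕ,
      (∀ X : Sch ℂ, SmoothProjective X → topologicalKrullDim X.left ≤ n → ∀ p : ℕ,
        HodgeIsAbsolute ω I ((Hc X (2 * p))⟦(p : ℤ)⟧)) ↔
      ∀ (a b c : ℕ) (T : Fin a → Fin b → Fin c → ℂ), (a ≤ n + 2 ∨ b ≤ n + 2 ∨ c ≤ n + 2) →
        ∀ (j : ℕ) (M : C), SumOfSimples M → IsSubquotient M (Hc (hypS T) j) →
          ∀ m : ℤ, HodgeIsAbsolute ω I (M⟦m⟧)) ∧
    ∀ (a b c : ℕ) (T : Fin a → Fin b → Fin c → ℂ), (a ≤ 5 ∨ b ≤ 5 ∨ c ≤ 5) →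
      ∀ (j : ℕ) (M : C), SumOfSimples M → IsSubquotient M (Hc (hypS T) j) →
        ∀ m : ℤ, HodgeIsAbsolute ω I (M⟦m⟧) :=
  ⟨fun n => hodge_iff hH n, (hodge_iff hH 3).mp hH.threefolds⟩

end Pool.Agent.Results.MP_4e1cf2_ag.TrilinearHypersurfaces
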